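import Mathlib
import Pool.Agent.N178.MU.Defs

/-!
# The complex Abel–Jacobi map on abelian varieties: known properties
-/

namespace Pool.Agent.N994.VO

open Module Pool.Agent.Y90 Pool.Agent.R915 Pool.Agent.N178.BL Pool.Agent.N178.MU

/-- Known properties of the complex Abel–Jacobi map on complex abelian varieties, with rational
coefficients. The cycles on `X` are the correspondences from the point `O` to `X`. -/
structure AJMap {C : ChowTheory} (K : Projectors C) (O : AV) where
  /-- the cycle is homologically trivial and its Abel–Jacobi image is torsion -/
  Triv : ∀ {X}, C.Co O X → Prop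
  triv_o : ∀ {X Y} (f : C.Co X Y) (z : C.Co O X), Triv z → Triv (C.o f z)
  /-- the group `CH_0(h_1(Y))` is the group of the points of `Y`, with rational coefficients -/
  albanese : ∀ {Y} (z : C.Co O Y), C.IsDeg 0 z → Triv z → C.o (K.pr Y 1) z = 0

end Pool.Agent.N994.VO
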