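import Mathlib
import Pool.Agent.N178.MU.AJ
import Pool.Agent.N994.VO.AJDefs
import Pool.Agent.N994.FH.K

/-!
# The Abel–Jacobi map, and the generalized Hodge conjecture for the classes (a), (b)
-/

namespace Pool.Agent.N994.VO

open Module Pool.Agent.Y90 Pool.Agent.R915 Pool.Agent.N178.BL Pool.Agent.N178.MU
open Pool.Agent.N178.HX
open Pool.Agent.W547.KB (CMPair CMAV single)
open Pool.Agent.N830.HC (av)
open Pool.Agent.N994.PG (SmallPeriods GenericPeriods)

/-- The Abel–Jacobi map in the predicted range. -/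
theorem aj_range' {C : ChowTheory} {K : Projectors C} {O X : AV} {p : C.Co X X}
    (hG : GHC C.alg X) (A : AJMap K O) (hO : finrank ℚ O.H = 0) (hp : C.IsMotive p) {i : ℤ}
    (hH : ∀ s t : ℕ, (s ≤ i ∧ i + 2 ≤ t) ∨ (t ≤ i ∧ i + 2 ≤ s) → HodgeZero p s t)
    {z : C.Co O X} (hz : C.IsDeg i z) (h0 : ∀ ω, C.pb z ω = 0) (ht : A.Triv z) : C.o p z = 0 :=
  aj_range (K := K) hG
    { Triv := A.Triv
      Alg := fun _ => True
      triv_o := A.triv_o
      alg_o := fun _ _ _ => trivial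
      alg_sub := fun _ _ _ _ => trivial
      alg_zero := fun _ _ _ => trivial
      albanese := A.albanese } hO hp hH hz h0 ht

/-- The Albanese map. -/
theorem aj_range0 {C : ChowTheory} {K : Projectors C} {O X : AV} {p : C.Co X X}
    (hG : GHC C.alg X) (A : AJMap K O) (hO : finrank ℚ O.H = 0) (hp : C.IsMotive p)
    (hH : ∀ t : ℕ, 2 ≤ t → HodgeZero p t 0 ∧ HodgeZero p 0 t)
    {z : C.Co O X} (hz : C.IsDeg 0 z) (h0 : ∀ ω, C.pb z ω = 0) (ht : A.Triv z) : C.o p z = 0 := by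
  refine aj_range' (i := 0) hG A hO hp (fun s t h => ?_) hz h0 ht
  rcases h with ⟨h1, h2⟩ | ⟨h1, h2⟩
  · obtain rfl : s = 0 := by omega
    exact (hH t (by omega)).2
  · obtain rfl : t = 0 := by omega
    exact (hH s (by omega)).1

/-- The generalized Hodge conjecture for the class (b). -/
theorem ghc_b {K J : Type} [Fintype K] (T : K → CMPair) (b : K → J) (hb : IndB T b)
    (hj : ∀ j, BlkOK T {k | b k = j}) (S : Sys) (X : AV)
    (hX : ∀ Y, IsFactor Y X → (∃ k, IsFactor Y (av (single (T k)))) ∨ SmallPeriods Y ∨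
      GenericPeriods Y ∨ (¬ HasCMult Y ∧ (finrank ℚ Y.H ≤ 6 ∨ QuadMult Y ∨ RealMult Y ∨ FiveDim Y ∨
        FullHodge Y) ∧ ∀ d : ℚ, Unbalanced Y d → finrank ℚ Y.H ≠ 8 ∧
          ∃ k E, IsFactor E (av (single (T k))) ∧ finrank ℚ E.H = 2 ∧ Unbalanced E d)) :
    GHC S X := by
  refine uncond' t_MAINT t_COV T b hb hj S X fun Y hY => ?_
  rcases hX Y hY with h1 | h1 | h1 | h1
  · exact Or.inl h1
  · obtain ⟨h2, h3, h4⟩ := Pool.Agent.N994.FH.typ_of_periods hY.1 (Or.inl h1)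
    exact Or.inr ⟨h2, by tauto, fun d hd => absurd hd (h4 d)⟩
  · obtain ⟨h2, h3, h4⟩ := Pool.Agent.N994.FH.typ_of_periods hY.1 (Or.inr h1)
    exact Or.inr ⟨h2, by tauto, fun d hd => absurd hd (h4 d)⟩
  · exact Or.inr h1

end Pool.Agent.N994.VO
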