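import Mathlib
import Pool.Agent.N994.VO.AJ

/-!
# The Abel–Jacobi map for abelian varieties in the classes (a), (b)
-/

namespace Pool.Agent.N994.VO

open Module Pool.Agent.Y90 Pool.Agent.R915 Pool.Agent.N178.BL Pool.Agent.N178.MU
open Pool.Agent.N178.HX
open Pool.Agent.W547.KB (CMPair CMAV single)
open Pool.Agent.N830.HC (av)
open Pool.Agent.N994.PG (SmallPeriods GenericPeriods)

/-- The Abel–Jacobi map in the predicted range for the classes (a), (b). -/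
theorem aj_good {C : ChowTheory} {K : Projectors C} {O X : AV} {p : C.Co X X}
    (hX : (∃ A : AV, finrank ℚ A.H ≤ 6 ∧
        ∀ Y, IsFactor Y X → IsFactor Y A ∨ SmallPeriods Y ∨ GenericPeriods Y) ∨
      ∃ (K J : Type) (_ : Fintype K) (T : K → CMPair) (b : K → J), IndB T b ∧
        (∀ j, BlkOK T {k | b k = j}) ∧
        (∀ Y, IsFactor Y X → (∃ k, IsFactor Y (av (single (T k)))) ∨ SmallPeriods Y ∨
          GenericPeriods Y ∨ (¬ HasCMult Y ∧ (finrank ℚ Y.H ≤ 6 ∨ QuadMult Y ∨ RealMult Y ∨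
            FiveDim Y ∨ FullHodge Y) ∧ ∀ d : ℚ, Unbalanced Y d → finrank ℚ Y.H ≠ 8 ∧
              ∃ k E, IsFactor E (av (single (T k))) ∧ finrank ℚ E.H = 2 ∧ Unbalanced E d)))
    (A : AJMap K O) (hO : finrank ℚ O.H = 0) (hp : C.IsMotive p) {i : ℤ}
    (hH : ∀ s t : ℕ, s ≤ i → i + 2 ≤ t → HodgeZero p s t ∧ HodgeZero p t s)
    {z : C.Co O X} (hz : C.IsDeg i z) (h0 : ∀ ω, C.pb z ω = 0) (ht : A.Triv z) :
    C.o p z = 0 := by
  refine aj_range' ?_ A hO hp (fun s t h => ?_) hz h0 ht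
  · rcases hX with ⟨A, hA, hX⟩ | ⟨K, J, _, T, b, hb, hj, hX⟩
    · exact Pool.Agent.N994.FH.ghc_periods _ hA hX
    · exact ghc_b T b hb hj _ X hX
  · rcases h with ⟨h1, h2⟩ | ⟨h1, h2⟩
    · exact (hH s t h1 h2).1
    · exact (hH t s h1 h2).2

end Pool.Agent.N994.VO
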