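import Mathlib
import Pool.Agent.N178.BL.Defs
import Pool.Agent.N178.HW.StmC

/-!
# Exterior products of correspondences on powers of complex abelian varieties: known properties

The structure `Powers` collects known properties of the exterior products of correspondences between
powers of complex abelian varieties, of the permutations of the factors, and of the Künneth formula.
-/

namespace Pool.Agent.N994.VO

open Module Pool.Agent.Y90 Pool.Agent.R915 Pool.Agent.N178.BL
open Pool.Agent.N178.HW (prodAV)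
open Pool.Agent.W546.GHC (complexify typeForms)

/-- The power `X^(n + 1)`. -/
noncomputable def pw (X : AV) : ℕ → AV
  | 0 => X
  | n + 1 => prodAV X (pw X n)

/-- Exterior products of correspondences and permutations of the factors, on the powers of complex
abelian varieties. -/
structure Exterior (C : ChowTheory) where
  /-- the coefficients are rational: correspondences can be divided by `k` -/
  div : ∀ {X Y} {r : ℤ} (k : ℕ) (f : C.Co X Y), k ≠ 0 → C.IsDeg r f → ∃ g, C.IsDeg r g ∧ k • g = f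
  torsion : ∀ {X Y} (k : ℕ) (f : C.Co X Y), k ≠ 0 → k • f = 0 → f = 0
  /-- correspondences of degree zero preserve the degree of cohomology classes -/
  graded : ∀ {X Y} (f : C.Co X Y), C.IsDeg 0 f → ∀ (ω : HT Y) (l : ℕ), ω l = 0 → C.pb f ω l = 0
  /-- the exterior product `f_0 × ... × f_n` -/
  ext : ∀ {X Y : AV} {n : ℕ}, (Fin (n + 1) → C.Co X Y) → C.Co (pw X n) (pw Y n)
  /-- the permutation `(x_i) ↦ (x_(σ⁻¹ i))` of the factors -/
  perm : ∀ (X : AV) (n : ℕ), Equiv.Perm (Fin (n + 1)) → C.Co (pw X n) (pw X n)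
  deg_ext : ∀ {X Y : AV} {n : ℕ} (f : Fin (n + 1) → C.Co X Y), (∀ i, C.IsDeg 0 (f i)) →
    C.IsDeg 0 (ext f)
  deg_perm : ∀ (X : AV) (n : ℕ) (σ : Equiv.Perm (Fin (n + 1))), C.IsDeg 0 (perm X n σ)
  ext_o : ∀ {X Y Z : AV} {n : ℕ} (f : Fin (n + 1) → C.Co X Y) (g : Fin (n + 1) → C.Co Y Z),
    C.o (ext g) (ext f) = ext fun i => C.o (g i) (f i)
  perm_mul : ∀ (X : AV) (n : ℕ) (σ τ : Equiv.Perm (Fin (n + 1))),
    C.o (perm X n σ) (perm X n τ) = perm X n (σ * τ)
  perm_ext : ∀ {X Y : AV} {n : ℕ} (σ : Equiv.Perm (Fin (n + 1))) (f : Fin (n + 1) → C.Co X Y),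
    C.o (perm Y n σ) (ext f) = C.o (ext fun i => f (σ⁻¹ i)) (perm X n σ)
  /-- a power of a point is a point -/
  perm_point : ∀ (X : AV) (n : ℕ) (σ : Equiv.Perm (Fin (n + 1))), finrank ℚ X.H = 0 →
    perm X n σ = C.one (pw X n)

/-- The class `ω` has degree `m`. -/
def HasDegree {X : AV} (ω : HT X) (m : ℕ) : Prop := ∀ l, l ≠ m → ω l = 0

/-- Exterior products of cohomology classes. -/
structure Kuenneth (C : ChowTheory) extends Exterior C where
  /-- the exterior product of cohomology classes -/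
  cr : ∀ {X : AV} {n : ℕ}, (Fin (n + 1) → HT X) → HT (pw X n)
  pb_ext : ∀ {X Y : AV} {n : ℕ} (f : Fin (n + 1) → C.Co X Y) (ω : Fin (n + 1) → HT Y),
    C.pb (ext f) (cr ω) = cr fun i => C.pb (f i) (ω i)
  /-- the Künneth formula -/
  kunneth : ∀ (X : AV) (n : ℕ) (η : HT (pw X n)), η ∈ AddSubgroup.closure (Set.range (cr (X := X)))
  /-- classes of degree `m` commute up to the sign `(-1)^m` -/
  pb_perm : ∀ {X : AV} {n : ℕ} (m : ℕ) (σ : Equiv.Perm (Fin (n + 1))) (ω : Fin (n + 1) → HT X),
    (∀ i, HasDegree (ω i) m) →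
      C.pb (perm X n σ) (cr ω) = ((Equiv.Perm.sign σ : ℤ) ^ m) • cr fun i => ω (σ i)
  cr_deg : ∀ {X : AV} {n : ℕ} (m : ℕ) (ω : Fin (n + 1) → HT X), (∀ i, HasDegree (ω i) m) →
    HasDegree (cr ω) ((n + 1) * m)

/-- The complex cohomology classes of degree `m` on `X`: the alternating `ℝ`-multilinear forms on the
tangent space with values in `ℂ`. -/
abbrev CForm (X : AV) (m : ℕ) : Type := X.T [⋀^Fin m]→ₗ[ℝ] ℂ

/-- The complex class `ψ` extends the component `ω m` of degree `m` of the rational class `ω`. -/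
def Extends {X : AV} {m : ℕ} (ψ : CForm X m) (ω : HT X) : Prop :=
  ∀ w : Fin m → X.H, ψ (fun l => X.per (w l)) = ((ω m w : ℚ) : ℂ)

/-- The complex class `ψ` has the Hodge type `(s, t)`. -/
def HasType {X : AV} {m : ℕ} (ψ : CForm X m) (s t : ℕ) : Prop := ψ ∈ typeForms X.T m s t

/-- Exterior products of complex cohomology classes. -/
structure Powers (C : ChowTheory) extends Kuenneth C where
  /-- the exterior product of complex classes of degree `m` -/
  crC : ∀ (X : AV) (n m : ℕ), MultilinearMap ℂ (fun _ : Fin (n + 1) => CForm X m)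
    (CForm (pw X n) ((n + 1) * m))
  /-- it extends the exterior product of rational classes -/
  cr_crC : ∀ {X : AV} {n : ℕ} (m : ℕ) (ω : Fin (n + 1) → HT X) (ψ : Fin (n + 1) → CForm X m),
    (∀ i, HasDegree (ω i) m) → (∀ i, Extends (ψ i) (ω i)) → Extends (crC X n m ψ) (cr ω)
  /-- the exterior product of classes of the types `(s i, t i)` has the type `(∑ s i, ∑ t i)` -/
  type : ∀ {X : AV} {n : ℕ} (m : ℕ) (s t : Fin (n + 1) → ℕ) (ψ : Fin (n + 1) → CForm X m),
    (∀ i, HasType (ψ i) (s i) (t i)) → HasType (crC X n m ψ) (∑ i, s i) (∑ i, t i)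

variable {C : ChowTheory} {X : AV}

/-- The Chow motive `(X, p)` has cohomology in degree `m` only. -/
def HasWeight (p : C.Co X X) (m : ℕ) : Prop := ∀ ω, HasDegree (C.pb p ω) m

/-- The Hodge number `h^(s, t)` of the Chow motive `(X, p)`, where `m = s + t`. -/
noncomputable def hodgeNumber (p : C.Co X X) (m s t : ℕ) : ℕ :=
  finrank ℂ ↥(complexify X.per (C.img p m) ⊓ typeForms X.T m s t)

end Pool.Agent.N994.VO
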