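import Mathlib
import Pool.Agent.N994.VO.Defs
import Pool.Agent.N178.BL.Main

/-!
# Exterior powers of Chow motives of abelian varieties
-/

namespace Pool.Agent.N994.VO

open Module Pool.Agent.Y90 Pool.Agent.R915 Pool.Agent.N178.BL
open Pool.Agent.N178.HX (GHC)

noncomputable section

variable {C : ChowTheory} (P : Powers C) {X Y Z O : AV} {n : ℕ}

/-- composition from the left -/
def oL (X : AV) (f : C.Co Y Z) : C.Co X Y →+ C.Co X Z := ⟨⟨C.o f, o_zero f⟩, C.o_add f⟩
/-- composition from the right -/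
def oR (Z : AV) (f : C.Co X Y) : C.Co Y Z →+ C.Co X Z :=
  ⟨⟨fun g => C.o g f, zero_o f⟩, fun a b => C.add_o a b f⟩
/-- the pull-back of a class -/
def pbR (X : AV) (ω : HT Y) : C.Co X Y →+ HT X :=
  ⟨⟨fun f => C.pb f ω, zero_pb ω⟩, fun a b => C.add_pb a b ω⟩

theorem deg_zsmul {r : ℤ} {f : C.Co X Y} (hf : C.IsDeg r f) (k : ℤ) : C.IsDeg r (k • f) := by
  induction k using Int.induction_on with
  | zero => rw [zero_smul]; exact deg_zero hf
  | succ k ih => rw [add_smul, one_smul]; exact deg_add ih hf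
  | pred k ih => rw [sub_smul, one_smul]; exact C.deg_sub _ _ ih hf

/-- the sign -/
def sg (m : ℕ) (σ : Equiv.Perm (Fin (n + 1))) : ℤ := (Equiv.Perm.sign σ : ℤ) ^ (m + 1)

theorem sg_mul (m : ℕ) (σ τ : Equiv.Perm (Fin (n + 1))) : sg m (σ * τ) = sg m σ * sg m τ := by
  unfold sg
  rw [map_mul, Units.val_mul, mul_pow]

theorem sg_inv (m : ℕ) (σ : Equiv.Perm (Fin (n + 1))) : sg m σ⁻¹ = sg m σ := by
  unfold sg
  rw [Equiv.Perm.sign_inv]

/-- `(n + 1)!` times the projector of the exterior power. -/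
def altSum (m : ℕ) (p : C.Co X X) : C.Co (pw X n) (pw X n) :=
  ∑ σ : Equiv.Perm (Fin (n + 1)), sg m σ • C.o (P.perm X n σ) (P.ext fun _ => p)

theorem perm_const (p : C.Co X X) (σ : Equiv.Perm (Fin (n + 1))) :
    C.o (P.perm X n σ) (P.ext fun _ => p) = C.o (P.ext fun _ => p) (P.perm X n σ) :=
  P.perm_ext σ fun _ => p

theorem deg_altSum (m : ℕ) {p : C.Co X X} (hp : C.IsMotive p) :
    C.IsDeg 0 (altSum (n := n) P m p) := by
  refine deg_sum _ _ (C.deg_one _) fun σ _ => deg_zsmul ?_ _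
  have h := C.deg_o _ _ (P.deg_ext (n := n) (fun _ => p) fun _ => hp.1) (P.deg_perm X n σ)
  rwa [add_zero] at h

theorem altSum_sq (m : ℕ) {p : C.Co X X} (hp : C.IsMotive p) :
    C.o (altSum P m p) (altSum P m p) = (n + 1).factorial • altSum (n := n) P m p := by
  have h1 : ∀ σ τ : Equiv.Perm (Fin (n + 1)),
      C.o (C.o (P.perm X n σ) (P.ext fun _ => p)) (C.o (P.perm X n τ) (P.ext fun _ => p)) =
        C.o (P.perm X n (σ * τ)) (P.ext fun _ => p) := by
    intro σ τ
    rw [← C.assoc _ _ (P.perm X n σ), C.assoc _ (P.perm X n τ) (P.ext fun _ => p),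
      ← perm_const P p τ, ← C.assoc _ _ (P.perm X n τ), P.ext_o, hp.2, C.assoc, P.perm_mul]
  have h2 : C.o (altSum P m p) (altSum (n := n) P m p) =
      ∑ σ : Equiv.Perm (Fin (n + 1)), ∑ τ : Equiv.Perm (Fin (n + 1)),
        sg m (σ * τ) • C.o (P.perm X n (σ * τ)) (P.ext fun _ => p) := by
    have e1 : C.o (altSum P m p) (altSum (n := n) P m p) =
      oR _ (altSum (n := n) P m p) (altSum P m p) := rfl
    rw [e1]
    conv_lhs => arg 2; unfold altSum
    rw [map_sum]
    refine Finset.sum_congr rfl fun σ _ => ?_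
    rw [map_zsmul]
    have e2 : oR (pw X n) (altSum (n := n) P m p) (C.o (P.perm X n σ) (P.ext fun _ => p)) =
      oL (pw X n) (C.o (P.perm X n σ) (P.ext fun _ => p)) (altSum (n := n) P m p) := rfl
    rw [e2]
    conv_lhs => arg 2; arg 2; unfold altSum
    rw [map_sum, Finset.smul_sum]
    refine Finset.sum_congr rfl fun τ _ => ?_
    rw [map_zsmul, ← mul_smul, ← sg_mul]
    exact congrArg _ (h1 σ τ)
  rw [h2]
  have h3 : ∀ σ : Equiv.Perm (Fin (n + 1)), (∑ τ : Equiv.Perm (Fin (n + 1)),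
      sg m (σ * τ) • C.o (P.perm X n (σ * τ)) (P.ext fun _ => p)) = altSum (n := n) P m p := by
    intro σ
    exact Fintype.sum_equiv (Equiv.mulLeft σ) _
      (fun ρ => sg m ρ • C.o (P.perm X n ρ) (P.ext fun _ => p)) fun _ => rfl
  rw [Finset.sum_congr rfl fun σ _ => h3 σ, Finset.sum_const, Finset.card_univ, Fintype.card_perm,
    Fintype.card_fin]

theorem exists_alt (m : ℕ) {p : C.Co X X} (hp : C.IsMotive p) :
    ∃ q : C.Co (pw X n) (pw X n), C.IsMotive q ∧ (n + 1).factorial • q = altSum P m p := by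
  have h0 : (n + 1).factorial ≠ 0 := Nat.factorial_ne_zero _
  obtain ⟨q, hq, h1⟩ := P.div _ _ h0 (deg_altSum (n := n) P m hp)
  refine ⟨q, ⟨hq, ?_⟩, h1⟩
  have h2 : (n + 1).factorial • ((n + 1).factorial • C.o q q) =
      (n + 1).factorial • ((n + 1).factorial • q) := by
    have e1 : (n + 1).factorial • C.o q q = C.o ((n + 1).factorial • q) q :=
      (map_nsmul (oR (pw X n) q) _ q).symm
    have e2 : (n + 1).factorial • C.o ((n + 1).factorial • q) q =
      C.o ((n + 1).factorial • q) ((n + 1).factorial • q) :=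
      (map_nsmul (oL (pw X n) ((n + 1).factorial • q)) _ q).symm
    rw [e1, e2, h1, altSum_sq P m hp]
  have h3 : ∀ a b : C.Co (pw X n) (pw X n), (n + 1).factorial • a = (n + 1).factorial • b →
      a = b := by
    intro a b hab
    have := P.torsion (n + 1).factorial (a - b) h0 (by rw [smul_sub, hab, sub_self])
    exact sub_eq_zero.1 this
  exact h3 _ _ (h3 _ _ h2)

/-- The alternating sum of exterior products of cycles. -/
theorem altSum_ext (m : ℕ) {p : C.Co X X} (hO : finrank ℚ O.H = 0) (a : Fin (n + 1) → C.Co O X)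
    (ha : ∀ i, C.o p (a i) = a i) :
    C.o (altSum P m p) (P.ext a) = ∑ σ, sg m σ • P.ext fun i => a (σ i) := by
  have e1 : C.o (altSum P m p) (P.ext a) = oR _ (P.ext a) (altSum P m p) := rfl
  rw [e1]
  unfold altSum
  rw [map_sum]
  refine Fintype.sum_equiv (Equiv.inv _) _ _ fun σ => ?_
  rw [map_zsmul, Equiv.inv_apply, sg_inv]
  congr 1
  change C.o (C.o (P.perm X n σ) (P.ext fun _ => p)) (P.ext a) = _
  rw [← C.assoc, P.ext_o, funext ha, P.perm_ext, P.perm_point O n σ hO, C.o_one]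

theorem pb_altSum (m : ℕ) {p : C.Co X X} (hw : HasWeight p m) (ω : Fin (n + 1) → HT X) :
    C.pb (altSum P m p) (P.cr ω) =
      ∑ σ : Equiv.Perm (Fin (n + 1)), (Equiv.Perm.sign σ : ℤ) • P.cr fun i => C.pb p (ω (σ i)) := by
  have e1 : C.pb (altSum P m p) (P.cr ω) = pbR _ (P.cr ω) (altSum P m p) := rfl
  rw [e1]
  unfold altSum
  rw [map_sum]
  refine Finset.sum_congr rfl fun σ _ => ?_
  rw [map_zsmul]
  have e2 : pbR (pw X n) (P.cr ω) (C.o (P.perm X n σ) (P.ext fun _ => p)) =
      ((Equiv.Perm.sign σ : ℤ) ^ m) • P.cr fun i => C.pb p (ω (σ i)) := by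
    change C.pb (C.o (P.perm X n σ) (P.ext fun _ => p)) (P.cr ω) = _
    rw [perm_const, C.pb_o, P.pb_ext, P.pb_perm m σ _ fun i l hl => hw _ l hl]
  rw [e2, ← mul_smul]
  congr 1
  unfold sg
  rcases Int.units_eq_one_or (Equiv.Perm.sign σ) with h | h
  · simp [h]
  · rw [h, ← pow_add, show m + 1 + m = 2 * m + 1 by ring, pow_succ, pow_mul]
    simp

theorem finrank_pw (hO : finrank ℚ O.H = 0) : finrank ℚ (pw O n).H = 0 := by
  induction n with
  | zero => exact hO
  | succ n ih =>
    change finrank ℚ (O.H × (pw O n).H) = 0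
    rw [finrank_prod, hO, ih]

/-- The classes in the image of the projector of the exterior power have degree `(n + 1) m`. -/
theorem weight_alt {m : ℕ} {p : C.Co X X} (hw : HasWeight p m) {q : C.Co (pw X n) (pw X n)}
    (hq : (n + 1).factorial • q = altSum P m p) : HasWeight q ((n + 1) * m) := by
  intro ω l hl
  have h0 : ((n + 1).factorial : ℚ) ≠ 0 := Nat.cast_ne_zero.2 (Nat.factorial_ne_zero _)
  have h1 : C.pb (altSum P m p) ω l = 0 := by
    induction P.kunneth X n ω using AddSubgroup.closure_induction with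
    | mem η hη =>
      obtain ⟨ω', rfl⟩ := hη
      rw [pb_altSum P m hw]
      have e1 : ∀ s : Finset (Equiv.Perm (Fin (n + 1))),
          (∑ σ ∈ s, (Equiv.Perm.sign σ : ℤ) • P.cr fun i => C.pb p (ω' (σ i))) l = 0 := by
        intro s
        classical
        induction s using Finset.induction_on with
        | empty => rfl
        | insert σ s hσ ih =>
          rw [Finset.sum_insert hσ]
          change ((Equiv.Perm.sign σ : ℤ) • P.cr fun i => C.pb p (ω' (σ i))) l + _ = 0
          rw [ih, add_zero]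
          change (Equiv.Perm.sign σ : ℤ) • (P.cr fun i => C.pb p (ω' (σ i))) l = 0
          rw [P.cr_deg m _ (fun i k hk => hw _ k hk) l hl, smul_zero]
      exact e1 _
    | zero => rw [pb_zero]; rfl
    | add a b _ _ ha hb =>
      rw [C.pb_add]
      change C.pb _ a l + C.pb _ b l = 0
      rw [ha, hb, add_zero]
    | neg a _ ha =>
      have h := C.pb_add (altSum P m p) a (-a)
      rw [add_neg_cancel, pb_zero] at h
      have h' : C.pb (altSum P m p) a l + C.pb (altSum P m p) (-a) l = 0 := (congrFun h l).symm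
      rwa [ha, zero_add] at h'
  rw [← hq] at h1
  have h2 : C.pb ((n + 1).factorial • q) ω = (n + 1).factorial • C.pb q ω :=
    map_nsmul (pbR (pw X n) ω) _ q
  rw [h2] at h1
  have h3 : (n + 1).factorial • (C.pb q ω l) = 0 := h1
  rw [← Nat.cast_smul_eq_nsmul ℚ] at h3
  exact (smul_eq_zero.1 h3).resolve_left h0

/-- The alternating sums of the exterior products of the zero-cycles on a motive of weight `m > 0` are
zero, if the exterior power has coniveau at least one. -/
theorem alt_zero {m : ℕ} (hm : 0 < m) {p : C.Co X X} (hp : C.IsMotive p) (hw : HasWeight p m)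
    (hG : GHC C.alg (pw X n))
    (hc : ∀ q : C.Co (pw X n) (pw X n), C.IsMotive q → (n + 1).factorial • q = altSum P m p →
      C.HasConiveau q 1)
    (hO : finrank ℚ O.H = 0) (a : Fin (n + 1) → C.Co O X) (ha : ∀ i, C.IsDeg 0 (a i))
    (hpa : ∀ i, C.o p (a i) = a i) : ∑ σ, sg m σ • P.ext (fun i => a (σ i)) = 0 := by
  obtain ⟨q, hq, h1⟩ := exists_alt (n := n) P m hp
  have h2 := mem_Fac hG hq (hc q hq h1)
  have h3 : C.o q (P.ext a) = 0 := by
    refine cycle_zero h2 (finrank_pw (n := n) hO) (i := 0) (by norm_num) ?_ ?_ ?_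
    · have h := C.deg_o _ _ (P.deg_ext a ha) hq.1
      rwa [add_zero] at h
    · rw [C.assoc, hq.2]
    · intro ω
      rw [C.pb_o]
      funext l
      rcases Nat.eq_zero_or_pos l with rfl | hl
      · refine P.graded _ (P.deg_ext a ha) _ _ ?_
        exact weight_alt P hw h1 ω 0 (by positivity)
      · exact form_zero (by rw [finrank_pw (n := n) hO]; exact hl) _
  rw [← altSum_ext P m hO a hpa, ← h1]
  have e1 : C.o ((n + 1).factorial • q) (P.ext a) = (n + 1).factorial • C.o q (P.ext a) :=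
    map_nsmul (oR _ (P.ext a)) _ q
  rw [e1, h3, smul_zero]

end

end Pool.Agent.N994.VO
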