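import Mathlib

/-!
# Voisin's conjecture for zero-cycles: linear algebra
-/

namespace Pool.Agent.N994.VO

open Module

/-- Leaf VAN. Alternating sums of exterior products of `n + 1` vectors of `V = ⊕ V ⊓ A s`, if
`V ⊓ A m` has dimension at most `n`, are in the sum of the `B s` with `s < (n + 1) m`. -/
def S_VAN : Prop := ∀ (F G : Type) (_ : AddCommGroup F) (_ : Module ℂ F) (_ : AddCommGroup G)
  (_ : Module ℂ G) (n m : ℕ) (c : MultilinearMap ℂ (fun _ : Fin (n + 1) => F) G)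
  (V : Submodule ℂ F) (A : ℕ → Submodule ℂ F) (B : ℕ → Submodule ℂ G), Module.Finite ℂ V →
  (∀ v ∈ V, v ∈ ⨆ s ∈ Finset.range (m + 1), V ⊓ A s) →
  (∀ (s : Fin (n + 1) → ℕ) (ψ : Fin (n + 1) → F), (∀ i, s i ≤ m) → (∀ i, ψ i ∈ A (s i)) →
    c ψ ∈ B (∑ i, s i)) →
  finrank ℂ ↥(V ⊓ A m) ≤ n → ∀ ψ : Fin (n + 1) → F, (∀ i, ψ i ∈ V) →
    ∑ σ : Equiv.Perm (Fin (n + 1)), (Equiv.Perm.sign σ : ℤ) • c (fun i => ψ (σ i)) ∈
      ⨆ s ∈ Finset.range ((n + 1) * m), B s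

end Pool.Agent.N994.VO
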