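import Mathlib
import Pool.Agent.N994.VO.Alg
import Pool.Agent.N994.VO.Stm
import Pool.Agent.N994.FH.Cn1

/-!
# The Hodge coniveau of the exterior powers
-/

namespace Pool.Agent.N994.VO

open Module Pool.Agent.Y90 Pool.Agent.R915 Pool.Agent.N178.BL
open Pool.Agent.W546.GHC (complexify typeForms IsHodgeSubstructure eigSum toFn rot lam
  eig_le_eigSum toFn_mem_eig eigSum_disjoint)

noncomputable section

variable {C : ChowTheory} (P : Powers C) {X : AV} {n m : ℕ} {p : C.Co X X}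

theorem fin_forms (X : AV) (m : ℕ) : Module.Finite ℂ (X.T [⋀^Fin m]→ₗ[ℝ] ℂ) := by
  have : Module.Finite ℝ X.T := Module.Finite.trans ℂ X.T
  let L : (X.T [⋀^Fin m]→ₗ[ℝ] ℂ) →ₗ[ℝ] MultilinearMap ℝ (fun _ : Fin m => X.T) ℂ :=
    { toFun := fun f => f.toMultilinearMap
      map_add' := fun _ _ => rfl
      map_smul' := fun _ _ => rfl }
  have : Module.Finite ℝ (X.T [⋀^Fin m]→ₗ[ℝ] ℂ) :=
    FiniteDimensional.of_injective L fun f g h => AlternatingMap.coe_multilinearMap_injective h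
  exact Module.Finite.of_restrictScalars_finite ℝ ℂ _

/-- evaluation of complex forms -/
def evL (X : AV) (k : ℕ) (w : Fin k → X.H) : (X.T [⋀^Fin k]→ₗ[ℝ] ℂ) →+ ℂ :=
  ⟨⟨fun Ψ => Ψ fun l => X.per (w l), rfl⟩, fun _ _ => rfl⟩

/-- evaluation of rational classes -/
def evR (X : AV) (k : ℕ) (w : Fin k → X.H) : HT X →+ ℂ :=
  ⟨⟨fun η => ((η k w : ℚ) : ℂ), by
    change (((0 : ℚ)) : ℂ) = 0
    exact Rat.cast_zero⟩, fun a b => by
    change ((a k w + b k w : ℚ) : ℂ) = _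
    exact Rat.cast_add _ _⟩

/-- The alternating exterior products of the complex classes in the image of `p`. -/
def altC (p : C.Co X X) (n m : ℕ) : Submodule ℂ ((pw X n).T [⋀^Fin ((n + 1) * m)]→ₗ[ℝ] ℂ) :=
  Submodule.span ℂ {Ψ | ∃ ψ : Fin (n + 1) → X.T [⋀^Fin m]→ₗ[ℝ] ℂ,
    (∀ i, ψ i ∈ complexify X.per (C.img p m)) ∧
      Ψ = ∑ σ : Equiv.Perm (Fin (n + 1)), (Equiv.Perm.sign σ : ℤ) • P.crC X n m fun i => ψ (σ i)}

theorem pb_sum {Y Z : AV} (f : C.Co Y Z) (a b : HT Z) : C.pb f (a + b) = C.pb f a + C.pb f b :=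
  C.pb_add f a b

theorem ext_altC (hw : HasWeight p m) {q : C.Co (pw X n) (pw X n)}
    (hq : (n + 1).factorial • q = altSum P m p) (ω : HT (pw X n)) :
    ∃ Ψ ∈ altC P p n m, ∀ w : Fin ((n + 1) * m) → (pw X n).H,
      Ψ (fun l => (pw X n).per (w l)) = ((C.pb q ω ((n + 1) * m) w : ℚ) : ℂ) := by
  have h0 : ((n + 1).factorial : ℚ) ≠ 0 := Nat.cast_ne_zero.2 (Nat.factorial_ne_zero _)
  have h0' : ((n + 1).factorial : ℂ) ≠ 0 := Nat.cast_ne_zero.2 (Nat.factorial_ne_zero _)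
  induction P.kunneth X n ω using AddSubgroup.closure_induction with
  | mem η hη =>
    obtain ⟨ω', rfl⟩ := hη
    have h1 : ∀ i, ∃ ψ ∈ complexify X.per (C.img p m), ∀ w : Fin m → X.H,
        ψ (fun l => X.per (w l)) = ((C.pb p (ω' i) m w : ℚ) : ℂ) := by
      intro i
      obtain ⟨ψ, hψ⟩ := ext_of X (C.pb p (ω' i) m)
      exact ⟨ψ, Submodule.subset_span ⟨_, Submodule.subset_span ⟨_, rfl⟩, hψ⟩, hψ⟩
    choose ψ hψ1 hψ2 using h1
    refine ⟨((n + 1).factorial : ℂ)⁻¹ • ∑ σ : Equiv.Perm (Fin (n + 1)),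
      (Equiv.Perm.sign σ : ℤ) • P.crC X n m fun i => ψ (σ i),
      Submodule.smul_mem _ _ (Submodule.subset_span ⟨ψ, hψ1, rfl⟩), fun w => ?_⟩
    have h2 : C.pb (altSum P m p) (P.cr ω') = (n + 1).factorial • C.pb q (P.cr ω') := by
      rw [← hq]
      exact map_nsmul (pbR (pw X n) (P.cr ω')) _ q
    rw [pb_altSum P m hw] at h2
    have e2 : evL (pw X n) _ w (∑ σ : Equiv.Perm (Fin (n + 1)), (Equiv.Perm.sign σ : ℤ) •
        P.crC X n m fun i => ψ (σ i)) = evR (pw X n) _ w (∑ σ : Equiv.Perm (Fin (n + 1)),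
          (Equiv.Perm.sign σ : ℤ) • P.cr fun i => C.pb p (ω' (σ i))) := by
      rw [map_sum, map_sum]
      refine Finset.sum_congr rfl fun σ _ => ?_
      rw [map_zsmul, map_zsmul]
      congr 1
      exact P.cr_crC m (fun i => C.pb p (ω' (σ i))) (fun i => ψ (σ i))
        (fun i l hl => hw _ l hl) (fun i w => hψ2 (σ i) w) w
    rw [h2, map_nsmul] at e2
    change ((n + 1).factorial : ℂ)⁻¹ • (evL (pw X n) _ w (∑ σ : Equiv.Perm (Fin (n + 1)),
      (Equiv.Perm.sign σ : ℤ) • P.crC X n m fun i => ψ (σ i))) =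
        evR (pw X n) _ w (C.pb q (P.cr ω'))
    rw [e2, nsmul_eq_mul, smul_eq_mul, ← mul_assoc, inv_mul_cancel₀ h0', one_mul]
  | zero =>
    refine ⟨0, Submodule.zero_mem _, fun w => ?_⟩
    rw [pb_zero]
    change (0 : ℂ) = ((0 : ℚ) : ℂ)
    rw [Rat.cast_zero]
  | add a b _ _ ha hb =>
    obtain ⟨Ψ, h1, h2⟩ := ha
    obtain ⟨Φ, h3, h4⟩ := hb
    refine ⟨Ψ + Φ, Submodule.add_mem _ h1 h3, fun w => ?_⟩
    rw [C.pb_add]
    change Ψ _ + Φ _ = ((C.pb q a ((n + 1) * m) w + C.pb q b ((n + 1) * m) w : ℚ) : ℂ)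
    rw [h2, h4, Rat.cast_add]
  | neg a _ ha =>
    obtain ⟨Ψ, h1, h2⟩ := ha
    refine ⟨-Ψ, Submodule.neg_mem _ h1, fun w => ?_⟩
    have h := C.pb_add q a (-a)
    rw [add_neg_cancel, pb_zero] at h
    have h' : C.pb q a ((n + 1) * m) w + C.pb q (-a) ((n + 1) * m) w = 0 := by
      have := congrFun h ((n + 1) * m)
      exact (DFunLike.congr_fun this w).symm
    change -(Ψ _) = _
    rw [h2, eq_neg_of_add_eq_zero_right h', Rat.cast_neg]

/-- The complexification of the image of the projector. -/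
theorem complexify_alt (hw : HasWeight p m) {q : C.Co (pw X n) (pw X n)}
    (hq : (n + 1).factorial • q = altSum P m p) :
    complexify (pw X n).per (C.img q ((n + 1) * m)) ≤ altC P p n m := by
  have h1 : ∀ f ∈ C.img q ((n + 1) * m), ∃ Ψ ∈ altC P p n m,
      ∀ w : Fin ((n + 1) * m) → (pw X n).H, Ψ (fun l => (pw X n).per (w l)) = ((f w : ℚ) : ℂ) := by
    intro f hf
    induction hf using Submodule.span_induction with
    | mem f hf =>
      obtain ⟨ω, rfl⟩ := hf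
      exact ext_altC P hw hq ω
    | zero => exact ⟨0, Submodule.zero_mem _, fun w => by
        change (0 : ℂ) = ((0 : ℚ) : ℂ)
        rw [Rat.cast_zero]⟩
    | add a b _ _ ha hb =>
      obtain ⟨Ψ, h1, h2⟩ := ha
      obtain ⟨Φ, h3, h4⟩ := hb
      refine ⟨Ψ + Φ, Submodule.add_mem _ h1 h3, fun w => ?_⟩
      change Ψ _ + Φ _ = ((a w + b w : ℚ) : ℂ)
      rw [h2, h4, Rat.cast_add]
    | smul r a _ ha =>
      obtain ⟨Ψ, h1, h2⟩ := ha
      refine ⟨(r : ℂ) • Ψ, Submodule.smul_mem _ _ h1, fun w => ?_⟩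
      change (r : ℂ) • Ψ _ = ((r • a w : ℚ) : ℂ)
      rw [h2, smul_eq_mul, smul_eq_mul, Rat.cast_mul]
  refine Submodule.span_le.2 ?_
  rintro Φ ⟨f, hf, hΦ⟩
  obtain ⟨Ψ, h2, h3⟩ := h1 f hf
  have h4 : Φ = Ψ := Pool.Agent.N994.FH.form_ext (pw X n) fun w => (hΦ w).trans (h3 w).symm
  rw [h4]
  exact h2

/-- A class in the complexified image, of type `((n + 1) m, 0)` or `(0, (n + 1) m)`, is zero. -/
theorem alt_disj (hVAN : S_VAN) (hp : C.IsMotive p) {A : ℕ → Submodule ℂ (X.T [⋀^Fin m]→ₗ[ℝ] ℂ)}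
    {B : ℕ → Submodule ℂ ((pw X n).T [⋀^Fin ((n + 1) * m)]→ₗ[ℝ] ℂ)}
    (hA : complexify X.per (C.img p m) ≤ ⨆ s ∈ Finset.range (m + 1),
      complexify X.per (C.img p m) ⊓ A s)
    (hAB : ∀ (s : Fin (n + 1) → ℕ) (ψ : Fin (n + 1) → X.T [⋀^Fin m]→ₗ[ℝ] ℂ), (∀ i, s i ≤ m) →
      (∀ i, ψ i ∈ A (s i)) → P.crC X n m ψ ∈ B (∑ i, s i))
    (hg : finrank ℂ ↥(complexify X.per (C.img p m) ⊓ A m) ≤ n) :
    altC P p n m ≤ ⨆ s ∈ Finset.range ((n + 1) * m), B s := by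
  refine Submodule.span_le.2 ?_
  rintro Ψ ⟨ψ, hψ, rfl⟩
  have := fin_forms X m
  exact hVAN _ _ _ _ _ _ n m (P.crC X n m) (complexify X.per (C.img p m)) A B inferInstance
    (fun v hv => hA hv) hAB hg ψ hψ

theorem sum_sub {s : Fin (n + 1) → ℕ} (hs : ∀ i, s i ≤ m) :
    ∑ i, (m - s i) = (n + 1) * m - ∑ i, s i := by
  have h1 : ∑ i, (m - s i) + ∑ i, s i = (n + 1) * m := by
    rw [← Finset.sum_add_distrib, Finset.sum_congr rfl fun i _ => Nat.sub_add_cancel (hs i),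
      Finset.sum_const, Finset.card_univ, Fintype.card_fin, smul_eq_mul]
  omega

section

variable {T : Type} [AddCommGroup T] [Module ℂ T] {i : ℕ}

theorem disj_top {Φ : T [⋀^Fin i]→ₗ[ℝ] ℂ}
    (h : Φ ∈ ⨆ s ∈ Finset.range i, typeForms T i s (i - s)) (h' : Φ ∈ typeForms T i i 0) :
    Φ = 0 := by
  have h5 : (⨆ s ∈ Finset.range i, typeForms T i s (i - s)) ≤
      (eigSum T i {s | s < i}).comap (toFn T i) := by
    refine iSup_le fun s => iSup_le fun hs => fun Φ hΦ => ?_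
    rw [Finset.mem_range] at hs
    have h6 := toFn_mem_eig hΦ
    exact eig_le_eigSum (P := {s | s < i}) (p := s) (q := i - s) hs (by omega) h6
  have h7 := eig_le_eigSum (T := T) (P := {i}) (p := i) (q := 0) (Set.mem_singleton _) (add_zero _)
    (toFn_mem_eig h')
  have h8 := eigSum_disjoint (P := {s | s < i}) (P' := {i}) (fun s hs => le_of_lt hs)
    (fun s hs => le_of_eq hs)
    (by rw [Set.disjoint_singleton_right]; exact fun (h : i < i) => lt_irrefl i h)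
    (h5 h) h7
  exact Pool.Agent.W546.GHC.toFn_injective (h8.trans (map_zero _).symm)

theorem disj_bot {Φ : T [⋀^Fin i]→ₗ[ℝ] ℂ}
    (h : Φ ∈ ⨆ t ∈ Finset.range i, typeForms T i (i - t) t) (h' : Φ ∈ typeForms T i 0 i) :
    Φ = 0 := by
  have h5 : (⨆ t ∈ Finset.range i, typeForms T i (i - t) t) ≤
      (eigSum T i {s | 0 < s ∧ s ≤ i}).comap (toFn T i) := by
    refine iSup_le fun t => iSup_le fun ht => fun Φ hΦ => ?_
    rw [Finset.mem_range] at ht
    have h6 := toFn_mem_eig hΦ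
    exact eig_le_eigSum (P := {s | 0 < s ∧ s ≤ i}) (p := i - t) (q := t) ⟨by omega, by omega⟩
      (by omega) h6
  have h7 := eig_le_eigSum (T := T) (P := {0}) (p := 0) (q := i) (Set.mem_singleton _) (zero_add _)
    (toFn_mem_eig h')
  have h8 := eigSum_disjoint (P := {s | 0 < s ∧ s ≤ i}) (P' := {0}) (fun s hs => hs.2)
    (fun s hs => by rw [Set.mem_singleton_iff.1 hs]; exact Nat.zero_le _)
    (by rw [Set.disjoint_singleton_right]; exact fun h => lt_irrefl _ h.1) (h5 h) h7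
  exact Pool.Agent.W546.GHC.toFn_injective (h8.trans (map_zero _).symm)

theorem dec_top {V : Submodule ℂ (T [⋀^Fin i]→ₗ[ℝ] ℂ)}
    (hV : V ≤ ⨆ (s : ℕ) (t : ℕ) (_ : s + t = i), V ⊓ typeForms T i s t) :
    V ≤ ⨆ s ∈ Finset.range (i + 1), V ⊓ typeForms T i s (i - s) := by
  refine hV.trans (iSup_le fun s => iSup_le fun t => iSup_le fun hst => ?_)
  obtain rfl : t = i - s := by omega
  exact le_biSup (fun s => V ⊓ typeForms T i s (i - s)) (Finset.mem_range.2 (by omega : s < i + 1))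

theorem dec_bot {V : Submodule ℂ (T [⋀^Fin i]→ₗ[ℝ] ℂ)}
    (hV : V ≤ ⨆ (s : ℕ) (t : ℕ) (_ : s + t = i), V ⊓ typeForms T i s t) :
    V ≤ ⨆ t ∈ Finset.range (i + 1), V ⊓ typeForms T i (i - t) t := by
  refine hV.trans (iSup_le fun s => iSup_le fun t => iSup_le fun hst => ?_)
  obtain rfl : s = i - t := by omega
  exact le_biSup (fun t => V ⊓ typeForms T i (i - t) t) (Finset.mem_range.2 (by omega : t < i + 1))

end

/-- The part of type `((n + 1) m, 0)` is zero. -/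
theorem top_zero (hVAN : S_VAN) (hp : C.IsMotive p) (hg : hodgeNumber p m m 0 ≤ n)
    {Ψ : (pw X n).T [⋀^Fin ((n + 1) * m)]→ₗ[ℝ] ℂ} (h2 : Ψ ∈ altC P p n m)
    (hT : Ψ ∈ typeForms (pw X n).T ((n + 1) * m) ((n + 1) * m) 0) : Ψ = 0 := by
  refine disj_top ?_ hT
  refine alt_disj P hVAN hp (A := fun s => typeForms X.T m s (m - s))
    (B := fun s => typeForms (pw X n).T ((n + 1) * m) s ((n + 1) * m - s)) ?_ ?_ ?_ h2
  · exact dec_top (le_of_eq (C.hodge p hp.1 m))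
  · intro s ψ hs hψ
    have h5 := P.type m s (fun i => m - s i) ψ hψ
    rw [sum_sub hs] at h5
    exact h5
  · have h5 : m - m = 0 := Nat.sub_self m
    change finrank ℂ ↥(complexify X.per (C.img p m) ⊓ typeForms X.T m m (m - m)) ≤ n
    rw [h5]
    exact hg

/-- The part of type `(0, (n + 1) m)` is zero. -/
theorem bot_zero (hVAN : S_VAN) (hp : C.IsMotive p) (hg : hodgeNumber p m 0 m ≤ n)
    {Ψ : (pw X n).T [⋀^Fin ((n + 1) * m)]→ₗ[ℝ] ℂ} (h2 : Ψ ∈ altC P p n m)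
    (hT : Ψ ∈ typeForms (pw X n).T ((n + 1) * m) 0 ((n + 1) * m)) : Ψ = 0 := by
  refine disj_bot ?_ hT
  refine alt_disj P hVAN hp (A := fun t => typeForms X.T m (m - t) t)
    (B := fun t => typeForms (pw X n).T ((n + 1) * m) ((n + 1) * m - t) t) ?_ ?_ ?_ h2
  · exact dec_bot (le_of_eq (C.hodge p hp.1 m))
  · intro t ψ ht hψ
    have h5 := P.type m (fun i => m - t i) t ψ hψ
    rw [sum_sub ht] at h5
    exact h5
  · have h5 : m - m = 0 := Nat.sub_self m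
    change finrank ℂ ↥(complexify X.per (C.img p m) ⊓ typeForms X.T m (m - m) m) ≤ n
    rw [h5]
    exact hg

/-- The part in other degrees is zero. -/
theorem deg_zero' (hw : HasWeight p m) {q : C.Co (pw X n) (pw X n)}
    (hq : (n + 1).factorial • q = altSum P m p) {k : ℕ} (hk : k ≠ (n + 1) * m)
    {Ψ : (pw X n).T [⋀^Fin k]→ₗ[ℝ] ℂ} (hΨ : Ψ ∈ complexify (pw X n).per (C.img q k)) : Ψ = 0 := by
  have h2 : C.img q k = ⊥ := by
    rw [eq_bot_iff]
    refine Submodule.span_le.2 ?_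
    rintro _ ⟨ω, rfl⟩
    exact weight_alt P hw hq ω k hk
  rw [h2] at hΨ
  refine Submodule.span_induction ?_ rfl ?_ ?_ hΨ
  · rintro Φ ⟨f, hf, h3⟩
    refine Pool.Agent.N994.FH.form_ext (pw X n) fun w => ?_
    rw [h3 w, (Submodule.mem_bot ℚ).1 hf]
    change (((0 : ℚ)) : ℂ) = 0
    exact Rat.cast_zero
  · rintro a b _ _ ha hb
    rw [ha, hb, add_zero]
  · rintro r a _ ha
    rw [ha, smul_zero]

/-- **The exterior powers have coniveau at least one.** -/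
theorem coniveau_alt (hVAN : S_VAN) (hp : C.IsMotive p) (hw : HasWeight p m)
    (hg : hodgeNumber p m m 0 ≤ n) (hg' : hodgeNumber p m 0 m ≤ n)
    {q : C.Co (pw X n) (pw X n)} (hq : (n + 1).factorial • q = altSum P m p) :
    C.HasConiveau q 1 := by
  intro k s t hst hne h1
  rw [Submodule.eq_bot_iff]
  rintro Ψ ⟨hΨ, hT⟩
  by_cases hk : k = (n + 1) * m
  swap
  · exact deg_zero' P hw hq hk hΨ
  subst hk
  have h2 := complexify_alt P hw hq hΨ
  have h3 : s = 0 ∨ t = 0 := by omega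
  rcases h3 with h3 | h3
  · subst h3
    rw [zero_add] at hst
    subst hst
    exact bot_zero P hVAN hp hg' h2 hT
  · subst h3
    rw [add_zero] at hst
    subst hst
    exact top_zero P hVAN hp hg h2 hT

end

end Pool.Agent.N994.VO
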