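import Mathlib
import Pool.Agent.N994.VO.Stm

/-!
# Voisin's conjecture for zero-cycles: leaf VAN (helper572)
-/

set_option autoImplicit false

namespace Pool.Agent.N994.VO

open Module

theorem t_VAN : S_VAN := by
  intro F G _ _ _ _ n m c V A B hV hdec hc hdim ψ hψ
  have h1 : ∀ i, ∃ μ : ∀ s : ℕ, ↥(V ⊓ A s),
      (∑ s ∈ Finset.range (m + 1), (μ s : F)) = ψ i := fun i =>
    (Submodule.mem_iSup_finset_iff_exists_sum _ _).1 (hdec _ (hψ i))
  choose μ hμ using h1
  set φ : Fin (n + 1) → Fin (m + 1) → F := fun i s => (μ i (s : ℕ) : F) with hφ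
  have hφV : ∀ (i : Fin (n + 1)) (s : Fin (m + 1)), φ i s ∈ V ⊓ A (s : ℕ) :=
    fun i s => (μ i (s : ℕ)).2
  have hψφ : ∀ i, ψ i = ∑ s, φ i s := fun i => by rw [← hμ i, Finset.sum_range]
  have hexp : ∀ σ : Equiv.Perm (Fin (n + 1)), c (fun i => ψ (σ i)) =
      ∑ r : Fin (n + 1) → Fin (m + 1), c (fun i => φ (σ i) (r (σ i))) := by
    intro σ
    have h2 : (fun i => ψ (σ i)) = fun i => ∑ s, φ (σ i) s := funext fun i => hψφ _
    rw [h2, MultilinearMap.map_sum]
    refine Fintype.sum_equiv (Equiv.arrowCongr σ (Equiv.refl _)) _ _ fun r => ?_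
    congr 1
    funext i
    simp [Equiv.arrowCongr]
  simp only [hexp, Finset.smul_sum]
  rw [Finset.sum_comm]
  refine Submodule.sum_mem _ fun r _ => ?_
  by_cases hr : ∀ j, (r j : ℕ) = m
  · have h2 : ∑ σ : Equiv.Perm (Fin (n + 1)), (Equiv.Perm.sign σ : ℤ) •
        c (fun i => φ (σ i) (r (σ i))) =
        MultilinearMap.alternatization c (fun j => φ j (r j)) := by
      rw [MultilinearMap.alternatization_apply]
      refine Finset.sum_congr rfl fun σ _ => ?_
      rw [Units.smul_def]
      rfl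
    rw [h2, AlternatingMap.map_linearDependent]
    · exact Submodule.zero_mem _
    · intro hli
      have : FiniteDimensional ℂ V := hV
      have : FiniteDimensional ℂ ↥(V ⊓ A m) :=
        Submodule.finiteDimensional_of_le (inf_le_left : V ⊓ A m ≤ V)
      have h3 : ∀ j, φ j (r j) ∈ V ⊓ A m := by
        intro j
        have := hφV j (r j)
        rwa [hr j] at this
      let χ : Fin (n + 1) → ↥(V ⊓ A m) := fun j => ⟨φ j (r j), h3 j⟩
      have h4 : LinearIndependent ℂ χ := by
        apply LinearIndependent.of_comp (V ⊓ A m).subtype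
        exact hli
      have h5 := h4.fintype_card_le_finrank
      rw [Fintype.card_fin] at h5
      omega
  · push Not at hr
    obtain ⟨j, hj⟩ := hr
    have hlt : ∑ i, (r i : ℕ) < (n + 1) * m := by
      calc ∑ i, (r i : ℕ) < ∑ _i : Fin (n + 1), m := by
            refine Finset.sum_lt_sum (fun i _ => Nat.lt_succ_iff.1 (r i).2)
              ⟨j, Finset.mem_univ _, ?_⟩
            have := (r j).2
            omega
        _ = (n + 1) * m := by simp
    refine Submodule.sum_mem _ fun σ _ => ?_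
    refine Submodule.smul_of_tower_mem _ _ ?_
    have h2 := hc (fun i => (r (σ i) : ℕ)) (fun i => φ (σ i) (r (σ i)))
      (fun i => Nat.lt_succ_iff.1 (r (σ i)).2) (fun i => (hφV (σ i) (r (σ i))).2)
    rw [Equiv.sum_comp σ (fun i => (r i : ℕ))] at h2
    exact (le_iSup₂ (f := fun s (_ : s ∈ Finset.range ((n + 1) * m)) => B s) _
      (Finset.mem_range.2 hlt)) h2

end Pool.Agent.N994.VO
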