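import Mathlib
import Pool.Agent.N994.VO.Hodge
import Pool.Agent.N994.VO.VAN
import Pool.Agent.N178.MU.RefMain

/-!
# Motives whose forms are in one degree
-/

namespace Pool.Agent.N994.VO

open Module Pool.Agent.Y90 Pool.Agent.R915 Pool.Agent.N178.BL
open Pool.Agent.N178.MU (Projectors HodgeZero IsRefined)
open Pool.Agent.W546.GHC (complexify typeForms)
open Pool.Agent.N178.HX (GHC)

noncomputable section

variable {C : ChowTheory} {X O : AV} {n m : ℕ} {p q : C.Co X X}

/-- A homologically trivial idempotent is zero. -/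
theorem idem_zero (hq : C.IsMotive q) (h0 : ∀ ω, C.pb q ω = 0) : q = 0 := by
  obtain ⟨N, hN⟩ := C.nilpotent q hq.1 h0
  have h1 : ∀ N : ℕ, C.o q ((fun g : C.Co X X => C.o q g)^[N] (C.one X)) = q := by
    intro N
    induction N with
    | zero => exact C.o_one q
    | succ N ih =>
      rw [Function.iterate_succ_apply', C.assoc, hq.2]
      exact ih
  have h2 := h1 N
  rw [hN, o_zero] at h2
  exact h2.symm

theorem complexify_le_of {l : ℕ} {V W : Submodule ℚ (X.H [⋀^Fin l]→ₗ[ℚ] ℚ)} (h : V ≤ W) :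
    complexify X.per V ≤ complexify X.per W :=
  Submodule.span_mono fun _ ⟨f, hf, h1⟩ => ⟨f, h hf, h1⟩

theorem img_le_of (h : C.o q p = q) (l : ℕ) : C.img q l ≤ C.img p l := by
  refine Submodule.span_le.2 ?_
  rintro _ ⟨ω, rfl⟩
  refine Submodule.subset_span ⟨C.pb q ω, ?_⟩
  rw [← C.pb_o, h]

theorem hodgeNumber_le (h : C.img q m ≤ C.img p m) (s t : ℕ) :
    hodgeNumber q m s t ≤ hodgeNumber p m s t := by
  have := fin_forms X m
  exact Submodule.finrank_mono (inf_le_inf_right _ (complexify_le_of h))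

/-- The part of weight `m` and coniveau zero of a motive. -/
theorem exists_part (K : Projectors C) (hG : GHC C.alg X) (hp : C.IsMotive p) (hm : 0 < m)
    (hz : ∀ s, 0 < s → s ≠ m → HodgeZero p s 0 ∧ HodgeZero p 0 s) (hO : finrank ℚ O.H = 0) :
    ∃ q : C.Co X X, C.IsMotive q ∧ HasWeight q m ∧ C.img q m ≤ C.img p m ∧
      ∀ z : C.Co O X, C.IsDeg 0 z → (∀ ω, C.pb z ω = 0) → C.o p z = z → C.o q z = z := by
  classical
  obtain ⟨ι, _, mm, k, Q, hR⟩ := Pool.Agent.N178.MU.exists_refined K hG hp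
  have hQp : ∀ i, C.o (Q i) p = Q i := by
    intro i
    have e1 : C.o (Q i) p = oL X (Q i) p := rfl
    rw [e1, hR.sum, map_sum, Finset.sum_eq_single i]
    · exact (hR.motive i).2
    · exact fun j _ hj => hR.orthogonal i j (Ne.symm hj)
    · exact fun h => absurd (Finset.mem_univ i) h
  have h1 : ∀ i, ¬ (mm i = m ∧ k i = 0) → ∀ z : C.Co O X, C.IsDeg 0 z → (∀ ω, C.pb z ω = 0) →
      C.o (Q i) z = 0 := by
    intro i hi z hz0 hz1
    rcases Nat.eq_zero_or_pos (k i) with hk | hk
    swap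
    · exact Pool.Agent.N178.MU.refined_chow K hO hR i 0 z hz0 hz1 (Or.inl (by exact_mod_cast hk))
    rcases Nat.eq_zero_or_pos (mm i) with hmm | hmm
    · exact Pool.Agent.N178.MU.refined_chow K hO hR i 0 z hz0 hz1
        (Or.inr (Or.inl (by rw [hmm]; positivity)))
    have h2 : C.img (Q i) (mm i) = ⊥ := by
      by_contra hne
      obtain ⟨s, t, hst, h3, h4⟩ := hR.coniveau i (C.img (Q i) (mm i))
        (C.hodge _ (hR.motive i).1 _) le_rfl hne
      have h5 := hz (mm i) hmm fun h => hi ⟨h, hk⟩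
      have h6 : complexify X.per (C.img (Q i) (mm i)) ≤ complexify X.per (C.img p (mm i)) :=
        complexify_le_of (img_le_of (hQp i) _)
      apply h4
      rw [eq_bot_iff]
      rcases h3 with h3 | h3
      · obtain rfl : s = 0 := by omega
        obtain rfl : t = mm i := by omega
        have h7 := h5.2
        unfold HodgeZero at h7
        rw [zero_add] at h7
        exact (inf_le_inf_right _ h6).trans (le_of_eq h7)
      · obtain rfl : t = 0 := by omega
        obtain rfl : s = mm i := by omega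
        exact (inf_le_inf_right _ h6).trans (le_of_eq h5.1)
    have h3 : Q i = 0 := by
      refine idem_zero (hR.motive i) fun ω => ?_
      funext l
      by_cases hl : l = mm i
      · subst hl
        have h4 : C.pb (Q i) ω (mm i) ∈ C.img (Q i) (mm i) := Submodule.subset_span ⟨ω, rfl⟩
        rw [h2] at h4
        exact (Submodule.mem_bot ℚ).1 h4
      · exact hR.weight i l hl ω
    rw [h3, zero_o]
  by_cases hex : ∃ i, mm i = m ∧ k i = 0
  · obtain ⟨i, hi1, hi2⟩ := hex
    refine ⟨Q i, hR.motive i, fun ω l hl => hR.weight i l (by rwa [hi1]) ω,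
      img_le_of (hQp i) m, fun z h2 h3 h4 => ?_⟩
    have e1 : C.o p z = oR X z p := rfl
    rw [e1, hR.sum, map_sum, Finset.sum_eq_single i] at h4
    · exact h4
    · intro j _ hj
      exact h1 j (fun h => hj (hR.injective j i (h.1.trans hi1.symm) (h.2.trans hi2.symm))) z h2 h3
    · exact fun h => absurd (Finset.mem_univ i) h
  · push Not at hex
    refine ⟨0, ⟨deg_zero (C.deg_one X), o_zero _⟩, fun ω l _ => ?_, ?_, fun z h2 h3 h4 => ?_⟩
    · rw [zero_pb]
      rfl
    · refine Submodule.span_le.2 ?_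
      rintro _ ⟨ω, rfl⟩
      rw [zero_pb]
      exact Submodule.zero_mem _
    · rw [zero_o]
      have e1 : C.o p z = oR X z p := rfl
      rw [e1, hR.sum, map_sum, Finset.sum_eq_zero] at h4
      · exact h4
      · intro j _
        exact h1 j (fun h => hex j h.1 h.2) z h2 h3

/-- **Voisin's conjecture for motives whose forms are in one degree `m > 0`.** -/
theorem voisin (P : Powers C) (K : Projectors C) (hG : GHC C.alg X) (hGn : GHC C.alg (pw X n))
    (hp : C.IsMotive p) (hm : 0 < m)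
    (hz : ∀ s, 0 < s → s ≠ m → HodgeZero p s 0 ∧ HodgeZero p 0 s)
    (hg : hodgeNumber p m m 0 ≤ n) (hg' : hodgeNumber p m 0 m ≤ n) (hO : finrank ℚ O.H = 0)
    (a : Fin (n + 1) → C.Co O X) (ha : ∀ i, C.IsDeg 0 (a i)) (h0 : ∀ i ω, C.pb (a i) ω = 0)
    (hpa : ∀ i, C.o p (a i) = a i) : ∑ σ, sg m σ • P.ext (fun i => a (σ i)) = 0 := by
  obtain ⟨q, hq, hw, hi, h1⟩ := exists_part K hG hp hm hz hO
  refine alt_zero P hm hq hw hGn (fun _ _ h2 => coniveau_alt P t_VAN hq hw
    ((hodgeNumber_le hi _ _).trans hg) ((hodgeNumber_le hi _ _).trans hg') h2) hO a ha fun i => ?_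
  exact h1 _ (ha i) (h0 i) (hpa i)

end

end Pool.Agent.N994.VO
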