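import Mathlib
import Pool.Agent.N994.VO.Hodge
import Pool.Agent.N994.VO.Stm2
import Pool.Agent.N178.MU.Defs

/-!
# The Hodge coniveau of the exterior powers, second part
-/

namespace Pool.Agent.N994.VO

open Module Pool.Agent.Y90 Pool.Agent.R915 Pool.Agent.N178.BL
open Pool.Agent.N178.MU (Projectors)
open Pool.Agent.W546.GHC (complexify typeForms IsHodgeSubstructure eigSum toFn rot lam
  eig_le_eigSum toFn_mem_eig eigSum_disjoint)
open Pool.Agent.N178.HX (GHC)

noncomputable section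

section

variable {T : Type} [AddCommGroup T] [Module ℂ T] {i c s t : ℕ}

theorem disj_top2 {Φ : T [⋀^Fin i]→ₗ[ℝ] ℂ} (hst : s + t = i) (hc : c ≤ i) (ht : t < c)
    (h : Φ ∈ ⨆ s ∈ Finset.range (i - c + 1), typeForms T i s (i - s))
    (h' : Φ ∈ typeForms T i s t) : Φ = 0 := by
  have h5 : (⨆ s ∈ Finset.range (i - c + 1), typeForms T i s (i - s)) ≤
      (eigSum T i {s | s ≤ i - c}).comap (toFn T i) := by
    refine iSup_le fun s => iSup_le fun hs => fun Φ hΦ => ?_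
    rw [Finset.mem_range] at hs
    have h6 := toFn_mem_eig hΦ
    exact eig_le_eigSum (P := {s | s ≤ i - c}) (p := s) (q := i - s) (Nat.lt_succ_iff.1 hs)
      (by omega) h6
  have h7 := eig_le_eigSum (T := T) (P := {s}) (p := s) (q := t) (Set.mem_singleton _) hst
    (toFn_mem_eig h')
  have h8 := eigSum_disjoint (P := {s | s ≤ i - c}) (P' := {s})
    (fun s hs => (show s ≤ i - c from hs).trans (Nat.sub_le _ _))
    (fun p hp => by rw [Set.mem_singleton_iff.1 hp]; omega)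
    (by rw [Set.disjoint_singleton_right]; exact fun (h : s ≤ i - c) => by omega)
    (h5 h) h7
  exact Pool.Agent.W546.GHC.toFn_injective (h8.trans (map_zero _).symm)

theorem disj_bot2 {Φ : T [⋀^Fin i]→ₗ[ℝ] ℂ} (hst : s + t = i) (hc : c ≤ i) (hs : s < c)
    (h : Φ ∈ ⨆ t ∈ Finset.range (i - c + 1), typeForms T i (i - t) t)
    (h' : Φ ∈ typeForms T i s t) : Φ = 0 := by
  have h5 : (⨆ t ∈ Finset.range (i - c + 1), typeForms T i (i - t) t) ≤
      (eigSum T i {s | c ≤ s ∧ s ≤ i}).comap (toFn T i) := by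
    refine iSup_le fun t => iSup_le fun ht => fun Φ hΦ => ?_
    rw [Finset.mem_range] at ht
    have h6 := toFn_mem_eig hΦ
    exact eig_le_eigSum (P := {s | c ≤ s ∧ s ≤ i}) (p := i - t) (q := t) ⟨by omega, by omega⟩
      (by omega) h6
  have h7 := eig_le_eigSum (T := T) (P := {s}) (p := s) (q := t) (Set.mem_singleton _) hst
    (toFn_mem_eig h')
  have h8 := eigSum_disjoint (P := {s | c ≤ s ∧ s ≤ i}) (P' := {s}) (fun s hs => hs.2)
    (fun p hp => by rw [Set.mem_singleton_iff.1 hp]; omega)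
    (by rw [Set.disjoint_singleton_right]; exact fun h => by have := h.1; omega) (h5 h) h7
  exact Pool.Agent.W546.GHC.toFn_injective (h8.trans (map_zero _).symm)

end

variable {C : ChowTheory} (P : Powers C) {X O : AV} {n m g : ℕ} {p : C.Co X X}

theorem alt_disj2 (hVAN : S_VAN2) (hm : 0 < m) (hgn : g ≤ n)
    {A : ℕ → Submodule ℂ (X.T [⋀^Fin m]→ₗ[ℝ] ℂ)}
    {B : ℕ → Submodule ℂ ((pw X n).T [⋀^Fin ((n + 1) * m)]→ₗ[ℝ] ℂ)}
    (hA : complexify X.per (C.img p m) ≤ ⨆ s ∈ Finset.range (m + 1),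
      complexify X.per (C.img p m) ⊓ A s)
    (hAB : ∀ (s : Fin (n + 1) → ℕ) (ψ : Fin (n + 1) → X.T [⋀^Fin m]→ₗ[ℝ] ℂ), (∀ i, s i ≤ m) →
      (∀ i, ψ i ∈ A (s i)) → P.crC X n m ψ ∈ B (∑ i, s i))
    (hg : finrank ℂ ↥(complexify X.per (C.img p m) ⊓ A m) ≤ g) :
    altC P p n m ≤ ⨆ s ∈ Finset.range ((n + 1) * m - (n + 1 - g) + 1), B s := by
  refine Submodule.span_le.2 ?_
  rintro Ψ ⟨ψ, hψ, rfl⟩
  have := fin_forms X m
  exact hVAN _ _ _ _ _ _ n m g (P.crC X n m) (complexify X.per (C.img p m)) A B hm hgn inferInstance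
    (fun v hv => hA hv) hAB hg ψ hψ

theorem top_zero2 (hVAN : S_VAN2) (hm : 0 < m) (hgn : g ≤ n) (hp : C.IsMotive p)
    (hg : hodgeNumber p m m 0 ≤ g) {s t : ℕ} (hst : s + t = (n + 1) * m) (ht : t < n + 1 - g)
    {Ψ : (pw X n).T [⋀^Fin ((n + 1) * m)]→ₗ[ℝ] ℂ} (h2 : Ψ ∈ altC P p n m)
    (hT : Ψ ∈ typeForms (pw X n).T ((n + 1) * m) s t) : Ψ = 0 := by
  have hc : n + 1 - g ≤ (n + 1) * m := by
    have : n + 1 ≤ (n + 1) * m := Nat.le_mul_of_pos_right _ hm
    omega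
  refine disj_top2 hst hc ht ?_ hT
  refine alt_disj2 P hVAN hm hgn (A := fun s => typeForms X.T m s (m - s))
    (B := fun s => typeForms (pw X n).T ((n + 1) * m) s ((n + 1) * m - s)) ?_ ?_ ?_ h2
  · exact dec_top (le_of_eq (C.hodge p hp.1 m))
  · intro s ψ hs hψ
    have h5 := P.type m s (fun i => m - s i) ψ hψ
    rw [sum_sub hs] at h5
    exact h5
  · have h5 : m - m = 0 := Nat.sub_self m
    change finrank ℂ ↥(complexify X.per (C.img p m) ⊓ typeForms X.T m m (m - m)) ≤ g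
    rw [h5]
    exact hg

theorem bot_zero2 (hVAN : S_VAN2) (hm : 0 < m) (hgn : g ≤ n) (hp : C.IsMotive p)
    (hg : hodgeNumber p m 0 m ≤ g) {s t : ℕ} (hst : s + t = (n + 1) * m) (hs : s < n + 1 - g)
    {Ψ : (pw X n).T [⋀^Fin ((n + 1) * m)]→ₗ[ℝ] ℂ} (h2 : Ψ ∈ altC P p n m)
    (hT : Ψ ∈ typeForms (pw X n).T ((n + 1) * m) s t) : Ψ = 0 := by
  have hc : n + 1 - g ≤ (n + 1) * m := by
    have : n + 1 ≤ (n + 1) * m := Nat.le_mul_of_pos_right _ hm
    omega
  refine disj_bot2 hst hc hs ?_ hT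
  refine alt_disj2 P hVAN hm hgn (A := fun t => typeForms X.T m (m - t) t)
    (B := fun t => typeForms (pw X n).T ((n + 1) * m) ((n + 1) * m - t) t) ?_ ?_ ?_ h2
  · exact dec_bot (le_of_eq (C.hodge p hp.1 m))
  · intro t ψ ht hψ
    have h5 := P.type m (fun i => m - t i) t ψ hψ
    rw [sum_sub ht] at h5
    exact h5
  · have h5 : m - m = 0 := Nat.sub_self m
    change finrank ℂ ↥(complexify X.per (C.img p m) ⊓ typeForms X.T m (m - m) m) ≤ g
    rw [h5]
    exact hg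

/-- **The coniveau of the exterior powers.** -/
theorem coniveau_alt2 (hVAN : S_VAN2) (hm : 0 < m) (hgn : g ≤ n) (hp : C.IsMotive p)
    (hw : HasWeight p m) (hg : hodgeNumber p m m 0 ≤ g) (hg' : hodgeNumber p m 0 m ≤ g)
    {q : C.Co (pw X n) (pw X n)} (hq : (n + 1).factorial • q = altSum P m p) :
    C.HasConiveau q (n + 1 - g) := by
  intro k s t hst hne h1
  rw [Submodule.eq_bot_iff]
  rintro Ψ ⟨hΨ, hT⟩
  by_cases hk : k = (n + 1) * m
  swap
  · exact deg_zero' P hw hq hk hΨ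
  subst hk
  have h2 := complexify_alt P hw hq hΨ
  rcases h1 with h1 | h1
  · exact bot_zero2 P hVAN hm hgn hp hg' hst h1 h2 hT
  · exact top_zero2 P hVAN hm hgn hp hg hst h1 h2 hT

/-- **The cycles of small dimension on the exterior powers.** -/
theorem cycles_alt (hVAN : S_VAN2) (K : Projectors C) (hm : 2 ≤ m) (hgn : g ≤ n)
    (hp : C.IsMotive p) (hw : HasWeight p m) (hG : GHC C.alg (pw X n))
    (hg : hodgeNumber p m m 0 ≤ g) (hg' : hodgeNumber p m 0 m ≤ g) (hO : finrank ℚ O.H = 0)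
    {j : ℕ} (hj : j + g ≤ n) {z : C.Co O (pw X n)} (hz : C.IsDeg j z) :
    C.o (altSum P m p) z = 0 := by
  obtain ⟨q, hq, h1⟩ := exists_alt (n := n) P m hp
  have h2 := mem_Fac hG hq (coniveau_alt2 P hVAN (by omega) hgn hp hw hg hg' h1)
  have h3 : C.o q z = 0 := by
    have hd : C.IsDeg j (C.o q z) := by
      have h := C.deg_o _ _ hz hq.1
      rwa [add_zero] at h
    refine cycle_zero h2 hO (i := j) (by omega) hd (by rw [C.assoc, hq.2]) fun ω => ?_
    funext l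
    rcases Nat.eq_zero_or_pos l with rfl | hl
    · rw [C.pb_o, K.graded j z hz (C.pb q ω) 0 0 fun a ha => ?_, pb_zero]
      refine weight_alt P hw h1 ω a ?_
      have h4 : (a : ℤ) = 2 * j := by
        rw [ha]
        push_cast
        ring
      have h5 : (n + 1) * 2 ≤ (n + 1) * m := Nat.mul_le_mul_left _ hm
      omega
    · exact form_zero (by rw [hO]; exact hl) _
  rw [← h1]
  have e1 : C.o ((n + 1).factorial • q) z = (n + 1).factorial • C.o q z :=
    map_nsmul (oR _ z) _ q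
  rw [e1, h3, smul_zero]

end

end Pool.Agent.N994.VO
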