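import Mathlib
import Pool.Agent.N994.VO.Stm2

/-!
# Voisin's conjecture for zero-cycles: leaf VAN2 (helper398, after VAN by helper572)
-/

set_option autoImplicit false

namespace Pool.Agent.N994.VO

open Module

theorem t_VAN2 : S_VAN2 := by
  intro F G _ _ _ _ n m g c V A B hm hg hV hdec hc hdim ψ hψ
  have h1 : ∀ i, ∃ μ : ∀ s : ℕ, ↥(V ⊓ A s),
      (∑ s ∈ Finset.range (m + 1), (μ s : F)) = ψ i := fun i =>
    (Submodule.mem_iSup_finset_iff_exists_sum _ _).1 (hdec _ (hψ i))
  choose μ hμ using h1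
  set φ : Fin (n + 1) → Fin (m + 1) → F := fun i s => (μ i (s : ℕ) : F) with hφ
  have hφV : ∀ (i : Fin (n + 1)) (s : Fin (m + 1)), φ i s ∈ V ⊓ A (s : ℕ) :=
    fun i s => (μ i (s : ℕ)).2
  have hψφ : ∀ i, ψ i = ∑ s, φ i s := fun i => by rw [← hμ i, Finset.sum_range]
  have hexp : ∀ σ : Equiv.Perm (Fin (n + 1)), c (fun i => ψ (σ i)) =
      ∑ r : Fin (n + 1) → Fin (m + 1), c (fun i => φ (σ i) (r (σ i))) := by
    intro σ
    have h2 : (fun i => ψ (σ i)) = fun i => ∑ s, φ (σ i) s := funext fun i => hψφ _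
    rw [h2, MultilinearMap.map_sum]
    refine Fintype.sum_equiv (Equiv.arrowCongr σ (Equiv.refl _)) _ _ fun r => ?_
    congr 1
    funext i
    simp [Equiv.arrowCongr]
  simp only [hexp, Finset.smul_sum]
  rw [Finset.sum_comm]
  refine Submodule.sum_mem _ fun r _ => ?_
  by_cases hr : g < Fintype.card {j // (r j : ℕ) = m}
  · have h2 : ∑ σ : Equiv.Perm (Fin (n + 1)), (Equiv.Perm.sign σ : ℤ) •
        c (fun i => φ (σ i) (r (σ i))) =
        MultilinearMap.alternatization c (fun j => φ j (r j)) := by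
      rw [MultilinearMap.alternatization_apply]
      refine Finset.sum_congr rfl fun σ _ => ?_
      rw [Units.smul_def]
      rfl
    rw [h2, AlternatingMap.map_linearDependent]
    · exact Submodule.zero_mem _
    · intro hli
      have : FiniteDimensional ℂ V := hV
      have : FiniteDimensional ℂ ↥(V ⊓ A m) :=
        Submodule.finiteDimensional_of_le (inf_le_left : V ⊓ A m ≤ V)
      have h3 : ∀ j : {j // (r j : ℕ) = m}, φ j.1 (r j.1) ∈ V ⊓ A m := by
        intro j
        have := hφV j.1 (r j.1)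
        rwa [j.2] at this
      let χ : {j // (r j : ℕ) = m} → ↥(V ⊓ A m) := fun j => ⟨φ j.1 (r j.1), h3 j⟩
      have h4 : LinearIndependent ℂ χ := by
        apply LinearIndependent.of_comp (V ⊓ A m).subtype
        exact hli.comp (Subtype.val : {j // (r j : ℕ) = m} → Fin (n + 1)) Subtype.val_injective
      have h5 := h4.fintype_card_le_finrank
      omega
  · have hle : ∀ i, (r i : ℕ) ≤ m := fun i => Nat.lt_succ_iff.1 (r i).2
    have hsum : ∑ i, (r i : ℕ) + ∑ i, (m - (r i : ℕ)) = (n + 1) * m := by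
      rw [← Finset.sum_add_distrib]
      have : ∀ i ∈ (Finset.univ : Finset (Fin (n + 1))), (r i : ℕ) + (m - (r i : ℕ)) = m :=
        fun i _ => Nat.add_sub_of_le (hle i)
      rw [Finset.sum_congr rfl this]
      simp
    have hcard : n + 1 ≤ Fintype.card {j // (r j : ℕ) = m} + ∑ i, (m - (r i : ℕ)) := by
      rw [Fintype.card_subtype, Finset.card_filter, ← Finset.sum_add_distrib]
      calc n + 1 = ∑ _i : Fin (n + 1), 1 := by simp
        _ ≤ _ := Finset.sum_le_sum fun i _ => by
            have := hle i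
            split_ifs with h
            · omega
            · omega
    have hlt : ∑ i, (r i : ℕ) < (n + 1) * m - (n + 1 - g) + 1 := by omega
    refine Submodule.sum_mem _ fun σ _ => ?_
    refine Submodule.smul_of_tower_mem _ _ ?_
    have h2 := hc (fun i => (r (σ i) : ℕ)) (fun i => φ (σ i) (r (σ i)))
      (fun i => Nat.lt_succ_iff.1 (r (σ i)).2) (fun i => (hφV (σ i) (r (σ i))).2)
    rw [Equiv.sum_comp σ (fun i => (r i : ℕ))] at h2
    exact (le_iSup₂ (f := fun s (_ : s ∈ Finset.range ((n + 1) * m - (n + 1 - g) + 1)) => B s) _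
      (Finset.mem_range.2 hlt)) h2

end Pool.Agent.N994.VO
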